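import Mathlib
import Pool.Agent.Results.MP_1cd194_co.PolynomialGap

/-!
# The gap between the two largest distance multiplicities in the plane

`D(n) ≥ n ^ (1 + c / log log n)` holds for every constant `c` and all large `n`; in fact
`D(n) ≥ n ^ (1 + c)` for some absolute `c > 0` and all large `n`. The point sets are those of
`MP_1cd194_co.PolynomialGap` (unit distances from towers of number fields).
-/

set_option autoImplicit false

open Filter

namespace Pool.Agent.Results.MP_cf6fa9_co.PolynomialGap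

/-- `mult X d` is the number of unordered pairs `{x, y}` of distinct points of `X` with
`|x - y| = d`. -/
noncomputable def mult (X : Finset (EuclideanSpace ℝ (Fin 2))) (d : ℝ) : ℕ :=
  Set.ncard {z : Sym2 (EuclideanSpace ℝ (Fin 2)) |
    ∃ x ∈ X, ∃ y ∈ X, x ≠ y ∧ dist x y = d ∧ z = s(x, y)}

/-- `a X k` is the `k`-th largest multiplicity of a distance of `X` (`k ≥ 1`): the largest `m ≥ 1`
such that at least `k` distances `d > 0` have multiplicity at least `m`, and `0` if `X` has fewer
than `k` distances. -/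
noncomputable def a (X : Finset (EuclideanSpace ℝ (Fin 2))) (k : ℕ) : ℕ :=
  sSup {m : ℕ | 1 ≤ m ∧ k ≤ Set.ncard {d : ℝ | 0 < d ∧ m ≤ mult X d}}

/-- `D n` is the maximum of `a_1(X) - a_2(X)` over all sets `X` of `n` points of the plane. -/
noncomputable def D (n : ℕ) : ℕ :=
  sSup {g : ℕ | ∃ X : Finset (EuclideanSpace ℝ (Fin 2)), X.card = n ∧ g = a X 1 - a X 2}

theorem D_eq (n : ℕ) : D n = MP_1cd194_co.PolynomialGap.M 1 n := rfl

/-- For every real `c` one has `D(n) ≥ n ^ (1 + c / log log n)` for all large `n`, and there is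
`c > 0` with `D(n) ≥ n ^ (1 + c)` for all large `n`. -/
theorem result :
    (∀ c : ℝ, ∀ᶠ n : ℕ in atTop, (n : ℝ) ^ (1 + c / Real.log (Real.log n)) ≤ D n) ∧
    ∃ c : ℝ, 0 < c ∧ ∀ᶠ n : ℕ in atTop, (n : ℝ) ^ (1 + c) ≤ D n := by
  obtain ⟨c, hc, n₀, h⟩ := MP_1cd194_co.PolynomialGap.result
  have h2 : ∀ᶠ n : ℕ in atTop, (n : ℝ) ^ (1 + c) ≤ D n := by
    filter_upwards [eventually_ge_atTop n₀] with n hn
    have := h n 1 le_rfl (by omega)
    rw [Nat.cast_one, div_one] at this
    rwa [D_eq]
  refine ⟨fun c' => ?_, c, hc, h2⟩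
  have hLL : Tendsto (fun n : ℕ => Real.log (Real.log (n : ℝ))) atTop atTop :=
    Real.tendsto_log_atTop.comp (Real.tendsto_log_atTop.comp tendsto_natCast_atTop_atTop)
  filter_upwards [h2, hLL.eventually_ge_atTop (|c'| / c), hLL.eventually_gt_atTop 0,
    eventually_ge_atTop 1] with n h3 h4 h5 h6
  refine le_trans ?_ h3
  apply Real.rpow_le_rpow_of_exponent_le (by exact_mod_cast h6)
  have h7 : c' / Real.log (Real.log n) ≤ c := by
    rw [div_le_iff₀ h5]
    rw [div_le_iff₀ hc] at h4
    linarith [le_abs_self c']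
  linarith

end Pool.Agent.Results.MP_cf6fa9_co.PolynomialGap
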